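import Pool.Agent.Helper886.SR.Gelfand
import Pool.Agent.Helper886.SR.Solv
import Pool.Agent.Helper886.SR.NC

/-! # MP_83ca68_al, Q1: the negated form, with characters

Finite soluble simply reducible groups have unbounded derived length. The groups are the images of
`SO_3(ℚ)` (rational Hamilton quaternions modulo the centre) in `GL_3(ℤ/2^n)`; in them any two
elements are inverted by one and the same element, and this property alone makes a finite group
simply reducible. -/

set_option autoImplicit false
open CategoryTheory MonoidalCategory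

namespace Pool.Agent.Results.MP_83ca68_al.UnboundedDerivedLength

/-- The inner product `⟨χ_V χ_W, χ_U⟩ = |G|⁻¹ ∑_g χ_V(g) χ_W(g) χ_U(g⁻¹)` of characters of complex
representations of a finite group. -/
noncomputable def mult (G : Type) [Group G] [Fintype G] (V W U : FDRep ℂ G) : ℂ :=
  (Fintype.card G : ℂ)⁻¹ * ∑ g : G, V.character g * W.character g * U.character g⁻¹

/-- Simply reducible groups: every element is conjugate to its inverse, and all the multiplicities
`⟨χψ, φ⟩` (with `χ, ψ, φ` irreducible) are `0` or `1`. -/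
def IsSR (G : Type) [Group G] [Fintype G] : Prop :=
  (∀ g : G, IsConj g g⁻¹) ∧
  ∀ V W U : FDRep ℂ G, Simple V → Simple W → Simple U → mult G V W U = 0 ∨ mult G V W U = 1

/-- A finite group in which any two elements are inverted by a common element is simply
reducible. -/
theorem isSR_of_pair (G : Type) [Group G] [Fintype G]
    (hG : ∀ x y : G, ∃ g : G, g * x * g⁻¹ = x⁻¹ ∧ g * y * g⁻¹ = y⁻¹) : IsSR G := by
  refine ⟨fun x => ?_, fun V W U hV hW hU => ?_⟩
  · obtain ⟨g, hg, -⟩ := hG x x
    exact isConj_iff.mpr ⟨g, hg⟩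
  · have h1 := Pool.Agent.Helper886.SR.multFree hG U V W hU hV hW
    haveI : NeZero (Nat.card G : ℂ) := ⟨by exact_mod_cast Nat.card_pos.ne'⟩
    have h2 := FDRep.scalar_product_char_eq_finrank_equivariant (k := ℂ) (G := G) U (V ⊗ W)
    have h3 : mult G V W U = (Module.finrank ℂ (U ⟶ V ⊗ W) : ℂ) := by
      rw [← h2, FDRep.char_tensor, Nat.card_eq_fintype_card]
      rfl
    rw [h3]
    interval_cases (Module.finrank ℂ (U ⟶ V ⊗ W)) <;> simp

/-- (1) For every `d` there is a finite soluble simply reducible group of derived length greater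
than `d`. (2) Every finite group in which any two elements are inverted by a common element is
simply reducible. -/
theorem result :
    (∀ d : ℕ, ∃ (G : Type) (_ : Group G) (_ : Fintype G), Group.IsSolvable G ∧ IsSR G ∧
      derivedSeries G d ≠ ⊥) ∧
    (∀ (G : Type) [Group G] [Fintype G],
      (∀ x y : G, ∃ g : G, g * x * g⁻¹ = x⁻¹ ∧ g * y * g⁻¹ = y⁻¹) → IsSR G) := by
  refine ⟨fun d => ?_, fun G _ _ h => isSR_of_pair G h⟩
  by_contra hcon
  push Not at hcon
  obtain ⟨X, hX, hN⟩ := Pool.Agent.Helper886.SR.exists_NC d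
  apply hN
  apply Pool.Agent.Helper886.SR.central_of_rot
  apply Pool.Agent.Helper886.SR.rot_of_red
  intro n
  letI : Fintype (Pool.Agent.Helper886.SR.Gp n) := Fintype.ofFinite _
  have hc : derivedSeries (Pool.Agent.Helper886.SR.Gp n) d = ⊥ :=
    hcon (Pool.Agent.Helper886.SR.Gp n) inferInstance inferInstance
      (Pool.Agent.Helper886.SR.Gp_solvable n)
      (isSR_of_pair _ (Pool.Agent.Helper886.SR.Gp_pair n))
  have h1 : (Pool.Agent.Helper886.SR.red n).rangeRestrict X ∈
      derivedSeries (Pool.Agent.Helper886.SR.Gp n) d :=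
    map_derivedSeries_le_derivedSeries (Pool.Agent.Helper886.SR.red n).rangeRestrict d
      (Subgroup.mem_map_of_mem _ hX)
  have h2 : (Pool.Agent.Helper886.SR.red n).rangeRestrict X ∈
      (⊥ : Subgroup (Pool.Agent.Helper886.SR.Gp n)) := by
    rw [← hc]
    exact h1
  have h3 := Subgroup.mem_bot.mp h2
  exact congrArg Subtype.val h3

end Pool.Agent.Results.MP_83ca68_al.UnboundedDerivedLength
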